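import Pool.Agent.Y33.RN.Stm
import Pool.Agent.TH54.BU.ConeA
import Pool.Agent.TH54.BU.Guess

/-!
# The cone metric of a small cancellation family (job RN-RB2 for helper33)
-/

set_option autoImplicit false

namespace Pool.Agent.Y240.RN

open Pool.Agent.TH54.BU Pool.Agent.H17R2
open Pool.Agent.Y33.RN (Jm CE F5 S_RB2)
open scoped Pointwise

theorem norm_mk_of_red {l : List (Fin 5 × Bool)} (h : FreeGroup.IsReduced l) :
    FreeGroup.norm (FreeGroup.mk l) = l.length := by
  rw [FreeGroup.norm, FreeGroup.toWord_mk, h.reduce_eq]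

/-- the word length of the free group -/
noncomputable def H0 : GH F5 where
  len := FreeGroup.norm
  D := 0
  len_one := FreeGroup.norm_one
  eq_one := fun g h => FreeGroup.norm_eq_zero.1 h
  len_inv := fun g => FreeGroup.norm_inv_eq
  len_mul := FreeGroup.norm_mul_le
  fp' := by
    intro u v w z
    have h : fd u v + fd w z ≤ max (fd u w + fd v z) (fd u z + fd v w) :=
      (fTree (Fin 5)).four u v w z
    unfold fd at h
    rcases le_max_iff.1 h with h1 | h1
    · have : FreeGroup.norm (u⁻¹ * v) + FreeGroup.norm (w⁻¹ * z) ≤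
          FreeGroup.norm (u⁻¹ * w) + FreeGroup.norm (v⁻¹ * z) := by exact_mod_cast h1
      have h2 := le_max_left (FreeGroup.norm (u⁻¹ * w) + FreeGroup.norm (v⁻¹ * z))
        (FreeGroup.norm (u⁻¹ * z) + FreeGroup.norm (v⁻¹ * w))
      omega
    · have : FreeGroup.norm (u⁻¹ * v) + FreeGroup.norm (w⁻¹ * z) ≤
          FreeGroup.norm (u⁻¹ * z) + FreeGroup.norm (v⁻¹ * w) := by exact_mod_cast h1
      have h2 := le_max_right (FreeGroup.norm (u⁻¹ * w) + FreeGroup.norm (v⁻¹ * z))
        (FreeGroup.norm (u⁻¹ * z) + FreeGroup.norm (v⁻¹ * w))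
      omega
  step := by
    intro g k hk
    have hr := FreeGroup.isReduced_toWord (x := g)
    have e : g.toWord = g.toWord.take k ++ g.toWord.drop k := (List.take_append_drop k _).symm
    have h5 : FreeGroup.IsReduced (g.toWord.take k ++ g.toWord.drop k) := by rw [← e]; exact hr
    have h6 : FreeGroup.IsReduced (g.toWord.take k) := (List.isChain_append.1 h5).1
    have h7 : FreeGroup.IsReduced (g.toWord.drop k) := (List.isChain_append.1 h5).2.1
    have hg : g = FreeGroup.mk (g.toWord.take k) * FreeGroup.mk (g.toWord.drop k) := by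
      rw [FreeGroup.mul_mk, ← e, FreeGroup.mk_toWord]
    have hk' : k ≤ g.toWord.length := hk
    have h8 : (FreeGroup.mk (g.toWord.take k))⁻¹ * g = FreeGroup.mk (g.toWord.drop k) := by
      conv_lhs => rw [hg]
      rw [show FreeGroup.mk ((FreeGroup.mk (g.toWord.take k) *
        FreeGroup.mk (g.toWord.drop k)).toWord.take k) = FreeGroup.mk (g.toWord.take k) by
          rw [← hg]]
      rw [inv_mul_cancel_left]
    refine ⟨FreeGroup.mk (g.toWord.take k), ?_, ?_⟩
    · rw [norm_mk_of_red h6, List.length_take]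
      omega
    · rw [h8, norm_mk_of_red h7, List.length_drop]
      show g.toWord.length - k + k = g.toWord.length
      omega

/-- the generating set of the cone metric -/
def gs (W : Words (Fin 5)) : Set F5 := {g | Jm W g}

variable (W : Words (Fin 5))

theorem gs_one : (1 : F5) ∈ gs W := by
  left
  rw [FreeGroup.norm_one]
  omega

theorem gs_inv : (gs W)⁻¹ = gs W := by
  have key : ∀ g : F5, g ∈ gs W → g⁻¹ ∈ gs W := by
    rintro g (h | ⟨x, hx, a, b, rfl⟩)
    · left
      rwa [FreeGroup.norm_inv_eq]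
    · right
      exact ⟨x, hx, b, a, by group⟩
  ext g
  rw [Set.mem_inv]
  exact ⟨fun h => by simpa using key _ h, key g⟩

theorem gs_pow (g : F5) : g ∈ gs W ^ (H0.len g) := by
  generalize hn : H0.len g = n
  induction n generalizing g with
  | zero =>
    have := H0.eq_one g hn
    simp [this]
  | succ n ih =>
    obtain ⟨h, h1, h2⟩ := H0.step g 1 (by omega)
    have h3 := ih (h⁻¹ * g) (by omega)
    rw [pow_succ']
    have h4 : g = h * (h⁻¹ * g) := by group
    rw [h4]
    refine Set.mul_mem_mul (Or.inl ?_) h3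
    have h5 : FreeGroup.norm h = 1 := h1
    omega

theorem gs_ex (g : F5) : ∃ n, g ∈ gs W ^ n := ⟨_, gs_pow W g⟩

/-- the cone distance -/
noncomputable def ce (u v : F5) : ℕ := wl (gs W) (u⁻¹ * v)

theorem ce_le (u v : F5) : ce W u v ≤ H0.d u v := wl_le (gs_pow W _)

theorem ce_dm : DM (ce W) where
  self := fun u => by unfold ce; rw [inv_mul_cancel]; exact wl_one
  eq := fun u v h => inv_mul_eq_one.1 (wl_eq_one (gs_ex W) _ h)
  comm := fun u v => by
    unfold ce
    rw [← wl_inv (gs_ex W) (gs_inv W) (u⁻¹ * v)]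
    congr 1
    group
  tri := fun u v w => by
    unfold ce
    have := wl_mul (gs_ex W) (u⁻¹ * v) (v⁻¹ * w)
    rwa [show u⁻¹ * v * (v⁻¹ * w) = u⁻¹ * w by group] at this
  btw := fun u v k hk => by
    obtain ⟨h, h1, h2⟩ := wl_step (gs_ex W) (u⁻¹ * v) k hk
    refine ⟨u * h, ?_, ?_⟩
    · unfold ce
      rw [show u⁻¹ * (u * h) = h by group, h1]
    · unfold ce
      rw [show (u * h)⁻¹ * v = h⁻¹ * (u⁻¹ * v) by group, h2]

theorem ce_le_one (u v : F5) : ce W u v ≤ 1 ↔ u⁻¹ * v ∈ gs W :=
  wl_le_one (gs_ex W) (gs_one W) _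

theorem fd_eq (u v : F5) : fd u v = (H0.d u v : ℤ) := rfl

/-- the geodesics between points at cone distance one stay near to the first point -/
theorem ce_near (p q r : F5) (h : ce W p q ≤ 1) (hr : H0.d p r + H0.d r q = H0.d p q) :
    ce W p r ≤ 1 := by
  rcases (ce_le_one W p q).1 h with h1 | ⟨x, hx, a, b, hk⟩
  · have h2 : H0.d p q ≤ 1 := h1
    have h3 := ce_le W p r
    omega
  · have hy := W.toFam.smul_mem (p * (x.1 a)⁻¹) x hx
    have hl := W.toFam.line _ hy
    have hya : (p * (x.1 a)⁻¹) • x.1 a = p := by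
      rw [smul_eq_mul]; group
    have hyb : (p * (x.1 a)⁻¹) • x.1 b = q := by
      rw [smul_eq_mul, mul_assoc, ← hk]; group
    have hab : fd p q = |a - b| := by
      have := hl a b
      simp only at this
      rw [hya, hyb] at this
      exact this
    have hq : (fTree (Fin 5)).d ((fun k => (p * (x.1 a)⁻¹) • x.1 k) a) r +
        (fTree (Fin 5)).d r ((fun k => (p * (x.1 a)⁻¹) • x.1 k) b) = |a - b| := by
      show fd ((p * (x.1 a)⁻¹) • x.1 a) r + fd r ((p * (x.1 a)⁻¹) • x.1 b) = |a - b|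
      rw [hya, hyb, ← hab, fd_eq, fd_eq, fd_eq]
      exact_mod_cast hr
    obtain ⟨u, hu, -, -⟩ := hl.on_line a b r hq
    rw [ce_le_one]
    right
    refine ⟨_, hy, a, u, ?_⟩
    show p⁻¹ * r = ((p * (x.1 a)⁻¹) • x.1 a)⁻¹ * ((p * (x.1 a)⁻¹) • x.1 u)
    rw [hya]
    exact congrArg (fun y => p⁻¹ * y) hu

/-- the cone length -/
noncomputable def coneGH (De : ℕ) (h : Four (ce W) De) : GH F5 where
  len := wl (gs W)
  D := De
  len_one := wl_one
  eq_one := wl_eq_one (gs_ex W)
  len_inv := wl_inv (gs_ex W) (gs_inv W)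
  len_mul := wl_mul (gs_ex W)
  fp' := h
  step := wl_step (gs_ex W)

theorem t : S_RB2 := by
  obtain ⟨R, hR⟩ := guess 0 1
  refine ⟨R, fun W => ?_⟩
  have hF : Four H0.d 0 := H0.four
  obtain ⟨g1, -, g3⟩ := hR F5 H0.d (ce W) H0.dm (ce_dm W) (ce_le W) hF (ce_near W)
  refine ⟨coneGH W R g3, le_rfl, ?_, ?_, ?_⟩
  · intro g
    exact wl_le_one (gs_ex W) (gs_one W) g
  · intro g
    exact wl_le (gs_pow W g)
  · intro γ n hG p hp
    refine g1 γ n hG.1 hG.2 p ?_
    rw [fd_eq, fd_eq, fd_eq] at hp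
    exact_mod_cast hp

end Pool.Agent.Y240.RN
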